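import Mathlib
import Pool.Agent.H82.NP.Targets

/-!
Parseval on the unit circle, Bessel inequality, weighted contraction (`MP_ff17e6_an`).
-/

set_option autoImplicit false

open Metric Set Filter Topology Polynomial

namespace Pool.Agent.H92.NP

open Pool.Agent.H82.NP
open Pool.Agent.H82.Hp (co Np Fext co_zero)

open ComplexConjugate

/-! ### basic facts -/

lemma ci_of {E : Type*} [NormedAddCommGroup E] {F : ℂ → E} (h : ContinuousOn F (sphere 0 1)) :
    CircleIntegrable F 0 1 := by
  apply ContinuousOn.circleIntegrable'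
  simpa using h

lemma av_congr {E : Type*} [NormedAddCommGroup E] [NormedSpace ℝ E] {F G : ℂ → E}
    (h : ∀ z : ℂ, ‖z‖ = 1 → F z = G z) :
    Real.circleAverage F 0 1 = Real.circleAverage G 0 1 := by
  apply Real.circleAverage_congr_sphere
  intro z hz
  rw [mem_sphere_zero_iff_norm, abs_one] at hz
  exact h z hz

lemma avc_ofReal (F : ℂ → ℝ) : avc (fun z => (F z : ℂ)) = (av F : ℂ) := by
  unfold avc av Real.circleAverage
  rw [intervalIntegral.integral_ofReal]
  simp

lemma avc_re {F : ℂ → ℂ} (h : CircleIntegrable F 0 1) : (avc F).re = av (fun z => (F z).re) := by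
  unfold avc av Real.circleAverage
  rw [Complex.real_smul, Complex.re_ofReal_mul, smul_eq_mul]
  congr 1
  have := Complex.reCLM.intervalIntegral_comp_comm h
  simpa using this.symm

lemma avc_conj (F : ℂ → ℂ) : avc (fun z => conj (F z)) = conj (avc F) := by
  unfold avc Real.circleAverage
  rw [Complex.real_smul, Complex.real_smul, map_mul, Complex.conj_ofReal]
  congr 1
  have h : ∀ (f : ℝ → ℂ) (a b : ℝ), ∫ t in a..b, conj (f t) = conj (∫ t in a..b, f t) := by
    intro f a b
    simp only [intervalIntegral, integral_conj, map_sub]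
  exact h _ _ _

lemma norm_ne {z : ℂ} (hz : ‖z‖ = 1) : z ≠ 0 := by
  intro h
  rw [h, norm_zero] at hz
  exact one_ne_zero hz.symm

lemma mul_conj_one {z : ℂ} (hz : ‖z‖ = 1) : z * conj z = 1 := by
  rw [Complex.mul_conj, Complex.normSq_eq_norm_sq, hz]; simp

lemma conj_eq_inv {z : ℂ} (hz : ‖z‖ = 1) : conj z = z⁻¹ := by
  rw [eq_comm, inv_eq_iff_eq_inv, eq_comm]
  apply inv_eq_of_mul_eq_one_left
  exact mul_conj_one hz

/-- Cauchy formula for the coefficients -/
lemma avc_mul_conj_pow {F : ℂ → ℂ} (hF : DiffContOnCl ℂ F (ball 0 1)) (k : ℕ) :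
    avc (fun z => F z * conj z ^ k) = co F k := by
  have h0 : avc (fun z => F z * conj z ^ k) = Real.circleAverage (fun z => F z / z ^ k) 0 1 := by
    apply av_congr
    intro z hz
    show F z * conj z ^ k = F z / z ^ k
    rw [conj_eq_inv hz, inv_pow, div_eq_mul_inv]
  rw [h0, Real.circleAverage_eq_circleIntegral one_ne_zero]
  have h2 := hF.circleIntegral_one_div_sub_center_pow_smul one_pos k
  have h3 : (∮ z in C(0, 1), (z - 0)⁻¹ • (F z / z ^ k))
      = ∮ z in C(0, 1), (1 / (z - 0) ^ (k + 1)) • F z := by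
    congr 1
    ext z
    simp only [sub_zero, smul_eq_mul]
    rw [pow_succ]
    by_cases hz : z = 0
    · subst hz; simp
    · field_simp
  rw [h3, h2, co]
  have hpi : (2 * (Real.pi : ℂ) * Complex.I) ≠ 0 := Complex.two_pi_I_ne_zero
  have hk : (k.factorial : ℂ) ≠ 0 := by exact_mod_cast Nat.factorial_ne_zero k
  simp only [smul_eq_mul]
  field_simp

lemma dcc_of {R : ℝ} (hR : 1 < R) {F : ℂ → ℂ} (hF : DifferentiableOn ℂ F (ball 0 R)) :
    DiffContOnCl ℂ F (ball 0 1) := by
  apply DifferentiableOn.diffContOnCl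
  rw [closure_ball _ one_ne_zero]
  exact hF.mono (closedBall_subset_ball hR)

lemma co_poly (P : ℂ[X]) (k : ℕ) : co (fun z => P.eval z) k = P.coeff k := by
  have h1 : ∀ (k : ℕ), iteratedDeriv k (fun z => P.eval z) = fun z => (derivative^[k] P).eval z := by
    intro k
    induction k with
    | zero => simp
    | succ k ih =>
      rw [iteratedDeriv_succ, ih]
      ext z
      rw [Polynomial.deriv, Function.iterate_succ_apply']
  unfold co
  rw [h1]
  have h2 : (derivative^[k] P).eval 0 = (derivative^[k] P).coeff 0 := by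
    rw [coeff_zero_eq_eval_zero]
  show (derivative^[k] P).eval 0 / (k.factorial : ℂ) = P.coeff k
  rw [h2, Polynomial.coeff_iterate_derivative, zero_add, Nat.descFactorial_self, nsmul_eq_mul]
  have hk : (k.factorial : ℂ) ≠ 0 := by exact_mod_cast Nat.factorial_ne_zero k
  field_simp

lemma eval_sum {n : ℕ} {G : ℂ[X]} (hG : G.natDegree ≤ n) (z : ℂ) :
    G.eval z = ∑ j ∈ Finset.range (n + 1), G.coeff j * z ^ j :=
  eval_eq_sum_range' (by omega) z

lemma cont_conj_pow (k : ℕ) : Continuous (fun z : ℂ => conj z ^ k) :=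
  (Complex.continuous_conj).pow k

lemma cont_sphere {F : ℂ → ℂ} (hF : DiffContOnCl ℂ F (ball 0 1)) : ContinuousOn F (sphere 0 1) := by
  have h := hF.continuousOn
  rw [closure_ball _ one_ne_zero] at h
  exact h.mono sphere_subset_closedBall

/-- pairing with a polynomial -/
lemma avc_pair {F : ℂ → ℂ} (hF : DiffContOnCl ℂ F (ball 0 1)) {n : ℕ} {P : ℂ[X]}
    (hP : P.natDegree ≤ n) :
    avc (fun z => F z * conj (P.eval z))
      = ∑ j ∈ Finset.range (n + 1), co F j * conj (P.coeff j) := by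
  have h1 : (fun z => F z * conj (P.eval z))
      = fun z => ∑ j ∈ Finset.range (n + 1), conj (P.coeff j) • (F z * conj z ^ j) := by
    ext z
    rw [eval_sum hP, map_sum, Finset.mul_sum]
    apply Finset.sum_congr rfl
    intro j _
    rw [map_mul, map_pow, smul_eq_mul]
    ring
  unfold avc
  rw [h1, Real.circleAverage_fun_sum]
  · apply Finset.sum_congr rfl
    intro j _
    rw [Real.circleAverage_fun_smul]
    have := avc_mul_conj_pow hF j
    unfold avc at this
    rw [this, smul_eq_mul, mul_comm]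
  · intro j _
    apply ci_of
    exact ContinuousOn.fun_const_smul ((cont_sphere hF).mul (cont_conj_pow j).continuousOn) (conj (P.coeff j))

lemma dcc_poly (P : ℂ[X]) : DiffContOnCl ℂ (fun z => P.eval z) (ball 0 1) :=
  P.differentiable.diffContOnCl

theorem t_PARS : T_PARS := by
  intro n G hG
  have h1 : ((av (sq G) : ℝ) : ℂ) = ((nrm n G : ℝ) : ℂ) := by
    rw [← avc_ofReal]
    have h2 : avc (fun z => ((sq G z : ℝ) : ℂ)) = avc (fun z => G.eval z * conj (G.eval z)) := by
      apply av_congr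
      intro z _
      show ((sq G z : ℝ) : ℂ) = G.eval z * conj (G.eval z)
      rw [Pool.Agent.H82.NP.sq, Complex.mul_conj, Complex.normSq_eq_norm_sq]
    rw [h2, avc_pair (dcc_poly G) hG, nrm]
    push_cast
    apply Finset.sum_congr rfl
    intro j _
    rw [co_poly, Complex.mul_conj, Complex.normSq_eq_norm_sq]
    push_cast
    rfl
  exact_mod_cast h1

/-! ### Bessel -/

/-- Taylor polynomial -/
noncomputable def tay (F : ℂ → ℂ) (m : ℕ) : ℂ[X] := ∑ j ∈ Finset.range m, monomial j (co F j)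

lemma tay_coeff (F : ℂ → ℂ) (m j : ℕ) : (tay F m).coeff j = if j < m then co F j else 0 := by
  unfold tay
  rw [finsetSum_coeff]
  simp only [coeff_monomial]
  rw [Finset.sum_ite_eq' (Finset.range m) j]
  simp only [Finset.mem_range]

lemma tay_deg (F : ℂ → ℂ) (m : ℕ) : (tay F m).natDegree ≤ m := by
  rw [natDegree_le_iff_coeff_eq_zero]
  intro N hN
  rw [tay_coeff, if_neg (by omega)]

theorem bessel_aux {F : ℂ → ℂ} (hF : DiffContOnCl ℂ F (ball 0 1)) (m : ℕ) :
    ∑ j ∈ Finset.range m, ‖co F j‖ ^ 2 ≤ av (fun z => ‖F z‖ ^ 2) := by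
  set P := tay F m with hP
  have hPdeg : P.natDegree ≤ m := tay_deg F m
  have hFc := cont_sphere hF
  have hPc : ContinuousOn (fun z => P.eval z) (sphere (0 : ℂ) 1) := P.continuous.continuousOn
  have hS : (avc (fun z => F z * conj (P.eval z))).re = ∑ j ∈ Finset.range m, ‖co F j‖ ^ 2 := by
    rw [avc_pair hF hPdeg, Complex.re_sum, Finset.sum_range_succ]
    rw [hP, tay_coeff, if_neg (lt_irrefl m), map_zero, mul_zero, Complex.zero_re, add_zero]
    apply Finset.sum_congr rfl
    intro j hj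
    rw [Finset.mem_range] at hj
    rw [tay_coeff, if_pos hj, Complex.mul_conj, Complex.normSq_eq_norm_sq, Complex.ofReal_re]
  have hN : av (sq P) = ∑ j ∈ Finset.range m, ‖co F j‖ ^ 2 := by
    rw [t_PARS m P hPdeg, nrm, Finset.sum_range_succ]
    rw [hP, tay_coeff, if_neg (lt_irrefl m), norm_zero, zero_pow two_ne_zero, add_zero]
    apply Finset.sum_congr rfl
    intro j hj
    rw [Finset.mem_range] at hj
    rw [tay_coeff, if_pos hj]
  have hint : CircleIntegrable (fun z => F z * conj (P.eval z)) 0 1 :=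
    ci_of (hFc.mul (Complex.continuous_conj.comp_continuousOn hPc))
  rw [avc_re hint] at hS
  have h0 : 0 ≤ av (fun z => ‖F z - P.eval z‖ ^ 2) := by
    apply Real.circleAverage_nonneg_of_nonneg
    intro z _
    positivity
  have h1 : av (fun z => ‖F z - P.eval z‖ ^ 2)
      = av (fun z => ‖F z‖ ^ 2) - 2 * av (fun z => (F z * conj (P.eval z)).re) + av (sq P) := by
    have e : (fun z => ‖F z - P.eval z‖ ^ 2)
        = fun z => (‖F z‖ ^ 2 - (2 : ℝ) • (F z * conj (P.eval z)).re) + sq P z := by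
      ext z
      rw [Pool.Agent.H82.NP.sq, ← Complex.normSq_eq_norm_sq, Complex.normSq_sub, Complex.normSq_eq_norm_sq,
        Complex.normSq_eq_norm_sq, smul_eq_mul]
      ring
    have c1 : CircleIntegrable (fun z => ‖F z‖ ^ 2) 0 1 := ci_of (hFc.norm.pow 2)
    have c2 : CircleIntegrable (fun z => (2 : ℝ) • (F z * conj (P.eval z)).re) 0 1 :=
      ci_of (ContinuousOn.fun_const_smul (Complex.continuous_re.comp_continuousOn
        (hFc.mul (Complex.continuous_conj.comp_continuousOn hPc))) (2 : ℝ))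
    have c3 : CircleIntegrable (sq P) 0 1 := ci_of (hPc.norm.pow 2)
    have c12 : CircleIntegrable (fun z => ‖F z‖ ^ 2 - (2 : ℝ) • (F z * conj (P.eval z)).re) 0 1 :=
      c1.sub c2
    unfold av
    rw [e, Real.circleAverage_fun_add c12 c3, Real.circleAverage_fun_sub c1 c2,
      Real.circleAverage_fun_smul]
    simp [smul_eq_mul]
  rw [h1, hS, hN] at h0
  linarith

theorem t_BESSEL : T_BESSEL := fun _ hR _ hF m => bessel_aux (dcc_of hR hF) m

/-! ### contraction -/

lemma an_zero {R : ℝ} (hR : 1 < R) {F : ℂ → ℂ} (hF : DifferentiableOn ℂ F (ball 0 R)) :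
    AnalyticAt ℂ F 0 := hF.analyticAt (ball_mem_nhds (0 : ℂ) (by linarith))

lemma co_mul {b φ : ℂ → ℂ} (hb : AnalyticAt ℂ b 0) (hφ : AnalyticAt ℂ φ 0) (k : ℕ) :
    co (fun z => b z * φ z) k = ∑ i ∈ Finset.range (k + 1), co b i * co φ (k - i) := by
  have h3 : ContDiffAt ℂ k b 0 := hb.contDiffAt
  have h4 : ContDiffAt ℂ k φ 0 := hφ.contDiffAt
  have h2 : iteratedDeriv k (fun z => b z * φ z) 0 = iteratedDeriv k (b * φ) 0 := rfl
  unfold co
  rw [h2, iteratedDeriv_mul h3 h4, Finset.sum_div]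
  apply Finset.sum_congr rfl
  intro i hi
  rw [Finset.mem_range] at hi
  have hki : (k.choose i : ℂ) = (k.factorial : ℂ) / ((i.factorial : ℂ) * ((k - i).factorial : ℂ)) := by
    rw [Nat.choose_eq_factorial_div_factorial (by omega : i ≤ k),
      Nat.cast_div (Nat.factorial_mul_factorial_dvd_factorial (by omega))]
    · push_cast; rfl
    · exact_mod_cast Nat.mul_ne_zero (Nat.factorial_ne_zero _) (Nat.factorial_ne_zero _)
  rw [hki]
  have f1 : (k.factorial : ℂ) ≠ 0 := by exact_mod_cast Nat.factorial_ne_zero k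
  have f2 : (i.factorial : ℂ) ≠ 0 := by exact_mod_cast Nat.factorial_ne_zero i
  have f3 : ((k - i).factorial : ℂ) ≠ 0 := by exact_mod_cast Nat.factorial_ne_zero (k - i)
  field_simp

lemma contr_partial {R : ℝ} (hR : 1 < R) {b φ : ℂ → ℂ} (hb : DifferentiableOn ℂ b (ball 0 R))
    (hφ : DifferentiableOn ℂ φ (ball 0 R)) (h1 : ∀ z : ℂ, ‖z‖ = 1 → ‖b z‖ ≤ 1) (m : ℕ) :
    ∑ j ∈ Finset.range m, ‖co (fun z => b z * φ z) j‖ ^ 2
      ≤ ∑ j ∈ Finset.range m, ‖co φ j‖ ^ 2 := by
  set P := tay φ m with hP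
  have hba := an_zero hR hb
  have hφa := an_zero hR hφ
  have hPa : AnalyticAt ℂ (fun z => P.eval z) 0 := P.differentiable.analyticAt 0
  have hPd : DifferentiableOn ℂ (fun z => P.eval z) (ball 0 R) := P.differentiable.differentiableOn
  have e1 : ∀ j ∈ Finset.range m, ‖co (fun z => b z * φ z) j‖ ^ 2
      = ‖co (fun z => b z * P.eval z) j‖ ^ 2 := by
    intro j hj
    rw [Finset.mem_range] at hj
    rw [co_mul hba hφa, co_mul hba hPa]
    congr 2
    apply Finset.sum_congr rfl
    intro i hi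
    rw [Finset.mem_range] at hi
    rw [co_poly, hP, tay_coeff, if_pos (by omega)]
  rw [Finset.sum_congr rfl e1]
  refine (t_BESSEL R hR _ (hb.mul hPd) m).trans ?_
  have hN : av (sq P) = ∑ j ∈ Finset.range m, ‖co φ j‖ ^ 2 := by
    rw [t_PARS m P (tay_deg φ m), nrm, Finset.sum_range_succ]
    rw [hP, tay_coeff, if_neg (lt_irrefl m), norm_zero, zero_pow two_ne_zero, add_zero]
    apply Finset.sum_congr rfl
    intro j hj
    rw [Finset.mem_range] at hj
    rw [tay_coeff, if_pos hj]
  rw [← hN]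
  have hbc := cont_sphere (dcc_of hR hb)
  have hPc : ContinuousOn (fun z => P.eval z) (sphere (0 : ℂ) 1) := P.continuous.continuousOn
  apply Real.circleAverage_mono
  · exact ci_of ((hbc.mul hPc).norm.pow 2)
  · exact ci_of (hPc.norm.pow 2)
  · intro z hz
    rw [mem_sphere_zero_iff_norm, abs_one] at hz
    show ‖b z * P.eval z‖ ^ 2 ≤ sq P z
    rw [Pool.Agent.H82.NP.sq, norm_mul]
    have := h1 z hz
    have h3 : ‖b z‖ * ‖P.eval z‖ ≤ ‖P.eval z‖ := by
      calc ‖b z‖ * ‖P.eval z‖ ≤ 1 * ‖P.eval z‖ := by gcongr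
        _ = ‖P.eval z‖ := one_mul _
    gcongr

/-- Abel summation with decreasing weights -/
lemma abel_mono (w x y : ℕ → ℝ) (hw : Antitone w) (hw0 : ∀ j, 0 ≤ w j)
    (h : ∀ m, ∑ j ∈ Finset.range m, x j ≤ ∑ j ∈ Finset.range m, y j) (m : ℕ) :
    ∑ j ∈ Finset.range m, w j * x j ≤ ∑ j ∈ Finset.range m, w j * y j := by
  have key : ∀ m, w m * (∑ j ∈ Finset.range m, (y j - x j))
      ≤ ∑ j ∈ Finset.range m, w j * (y j - x j) := by
    intro m
    induction m with
    | zero => simp
    | succ m ih =>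
      rw [Finset.sum_range_succ, Finset.sum_range_succ (fun j => w j * (y j - x j))]
      have h1 : 0 ≤ ∑ j ∈ Finset.range m, (y j - x j) := by
        rw [Finset.sum_sub_distrib]; linarith [h m]
      have h1' : 0 ≤ ∑ j ∈ Finset.range (m + 1), (y j - x j) := by
        rw [Finset.sum_sub_distrib]; linarith [h (m + 1)]
      rw [Finset.sum_range_succ] at h1'
      have h2 : w (m + 1) ≤ w m := hw (Nat.le_succ m)
      calc w (m + 1) * (∑ j ∈ Finset.range m, (y j - x j) + (y m - x m))
          ≤ w m * (∑ j ∈ Finset.range m, (y j - x j) + (y m - x m)) := by gcongr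
        _ = w m * (∑ j ∈ Finset.range m, (y j - x j)) + w m * (y m - x m) := by ring
        _ ≤ _ := by linarith
  have h1 := key m
  have h2 : 0 ≤ ∑ j ∈ Finset.range m, (y j - x j) := by
    rw [Finset.sum_sub_distrib]; linarith [h m]
  have h3 : ∑ j ∈ Finset.range m, w j * (y j - x j)
      = ∑ j ∈ Finset.range m, w j * y j - ∑ j ∈ Finset.range m, w j * x j := by
    rw [← Finset.sum_sub_distrib]
    apply Finset.sum_congr rfl
    intro j _
    ring
  have h4 := mul_nonneg (hw0 m) h2
  linarith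

theorem t_CONTR : T_CONTR := by
  intro R hR b φ hb hφ h1 w hw hw0 m
  exact abel_mono w _ _ hw hw0 (fun m => contr_partial hR hb hφ h1 m) m

end Pool.Agent.H92.NP
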