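import Mathlib
import Pool.Agent.H92.NP.Pars

/-!
The series lemma (`MP_ff17e6_an`).
-/

set_option autoImplicit false

open Metric Set Filter Topology Polynomial

namespace Pool.Agent.H92.NP

open Pool.Agent.H82.NP

open ComplexConjugate

/-- the coefficients -/
noncomputable def cc (n : ℕ) : ℝ := (-1) ^ n * (2 / (((n : ℝ) + 1) * (n + 2) * (n + 3)))

/-- absolute values -/
noncomputable def ca (n : ℕ) : ℝ := 2 / (((n : ℝ) + 1) * (n + 2) * (n + 3))

lemma ca_pos (n : ℕ) : 0 < ca n := by unfold ca; positivity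

lemma abs_cc (n : ℕ) : |cc n| = ca n := by
  unfold cc
  rw [abs_mul, abs_pow, abs_neg, abs_one, one_pow, one_mul]
  exact abs_of_pos (ca_pos n)

lemma hasSum_ca : HasSum ca (1 / 2) := by
  have h1 : ∀ n : ℕ, ca n = 1 / (((n : ℝ) + 1) * (n + 2)) - 1 / ((((n + 1 : ℕ) : ℝ) + 1) * ((n + 1 : ℕ) + 2)) := by
    intro n
    unfold ca
    push_cast
    have a1 : (n : ℝ) + 1 ≠ 0 := by positivity
    have a2 : (n : ℝ) + 2 ≠ 0 := by positivity
    have a3 : (n : ℝ) + 3 ≠ 0 := by positivity
    have a4 : (n : ℝ) + 1 + 1 ≠ 0 := by positivity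
    have a5 : (n : ℝ) + 1 + 2 ≠ 0 := by positivity
    field_simp
    ring
  rw [hasSum_iff_tendsto_nat_of_nonneg (fun n => (ca_pos n).le)]
  have h2 : ∀ N : ℕ, ∑ i ∈ Finset.range N, ca i = 1 / 2 - 1 / (((N : ℝ) + 1) * (N + 2)) := by
    intro N
    induction N with
    | zero => norm_num
    | succ N ih =>
      rw [Finset.sum_range_succ, ih, h1 N]
      ring
  simp_rw [h2]
  have h3 : Tendsto (fun N : ℕ => 1 / (((N : ℝ) + 1) * (N + 2))) atTop (𝓝 0) := by
    have h4 : Tendsto (fun N : ℕ => 1 / ((N : ℝ) + 1)) atTop (𝓝 0) :=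
      tendsto_one_div_add_atTop_nhds_zero_nat
    refine squeeze_zero (fun N => by positivity) (fun N => ?_) h4
    apply one_div_le_one_div_of_le (by positivity)
    nlinarith [Nat.cast_nonneg (α := ℝ) N]
  simpa using (tendsto_const_nhds (x := (1 / 2 : ℝ))).sub h3

/-- the power series of `(1+w)^2 log(1+w)` in the open disc -/
lemma hasSum_h {w : ℂ} (hw : ‖w‖ < 1) :
    HasSum (fun n : ℕ => (cc n : ℂ) * w ^ (n + 3))
      ((1 + w) ^ 2 * Complex.log (1 + w) - w - 3 / 2 * w ^ 2) := by
  have h0 := Complex.hasSum_taylorSeries_log hw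
  set S := Complex.log (1 + w) with hS
  set l : ℕ → ℂ := fun n => (-1) ^ (n + 1) * w ^ n / n with hl
  have h1 : HasSum (fun n => l (n + 1)) S := by
    have := (hasSum_nat_add_iff' 1).mpr h0
    simp only [Finset.range_one, Finset.sum_singleton] at this
    have e : l 0 = 0 := by simp [hl]
    have e' : S - (-1) ^ (0 + 1) * w ^ 0 / ((0 : ℕ) : ℂ) = S := by simp
    rw [e'] at this
    exact this
  have h2 : HasSum (fun n => l (n + 2)) (S - w) := by
    have := (hasSum_nat_add_iff' 1).mpr h1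
    simp only [Finset.range_one, Finset.sum_singleton] at this
    have e : l (0 + 1) = w := by simp [hl]
    rw [e] at this
    exact this
  have h3 : HasSum (fun n => l (n + 3)) (S - w + w ^ 2 / 2) := by
    have := (hasSum_nat_add_iff' 1).mpr h2
    simp only [Finset.range_one, Finset.sum_singleton] at this
    have e : l (0 + 2) = -(w ^ 2 / 2) := by
      simp only [hl]
      push_cast
      ring
    rw [e, sub_neg_eq_add] at this
    exact this
  have h4 := (h3.add (h2.mul_left (2 * w))).add (h1.mul_left (w ^ 2))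
  have e1 : S - w + w ^ 2 / 2 + 2 * w * (S - w) + w ^ 2 * S
      = (1 + w) ^ 2 * S - w - 3 / 2 * w ^ 2 := by ring
  rw [e1] at h4
  have e2 : (fun n : ℕ => (cc n : ℂ) * w ^ (n + 3))
      = fun n => l (n + 3) + 2 * w * l (n + 2) + w ^ 2 * l (n + 1) := by
    ext n
    simp only [hl, cc]
    push_cast
    have a1 : (n : ℂ) + 1 ≠ 0 := by exact_mod_cast Nat.succ_ne_zero n
    have a2 : (n : ℂ) + 2 ≠ 0 := by exact_mod_cast Nat.succ_ne_zero (n + 1)
    have a3 : (n : ℂ) + 3 ≠ 0 := by exact_mod_cast Nat.succ_ne_zero (n + 2)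
    field_simp
    ring
  rw [e2]
  exact h4

/-- the right side as a function on the closed disc -/
noncomputable def AA (w : ℂ) : ℂ := ∑' n : ℕ, (cc n : ℂ) * w ^ (n + 3)

lemma norm_term {w : ℂ} (hw : ‖w‖ ≤ 1) (n k : ℕ) : ‖(cc n : ℂ) * w ^ k‖ ≤ ca n := by
  rw [norm_mul, Complex.norm_real, Real.norm_eq_abs, abs_cc, norm_pow]
  have : ‖w‖ ^ k ≤ 1 := pow_le_one₀ (norm_nonneg _) hw
  calc ca n * ‖w‖ ^ k ≤ ca n * 1 := by gcongr; exact (ca_pos n).le
    _ = ca n := mul_one _

lemma summ {w : ℂ} (hw : ‖w‖ ≤ 1) (k : ℕ) : Summable (fun n : ℕ => (cc n : ℂ) * w ^ (n + k)) :=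
  Summable.of_norm_bounded hasSum_ca.summable (fun n => norm_term hw n _)

lemma cont_path (b : ℂ) (hb : ‖b‖ = 1) :
    ContinuousOn (fun t : ℝ => AA ((t : ℂ) * b)) (Icc 0 1) := by
  unfold AA
  apply continuousOn_tsum (u := ca)
  · intro n
    fun_prop
  · exact hasSum_ca.summable
  · intro n t ht
    apply norm_term
    rw [norm_mul, hb, mul_one, Complex.norm_real, Real.norm_eq_abs, abs_of_nonneg ht.1]
    exact ht.2

lemma lim_unique {f g : ℝ → ℂ} (hf : ContinuousWithinAt f (Iio 1) 1)
    (hg : ContinuousOn g (Icc 0 1)) (h : ∀ t ∈ Ioo (0 : ℝ) 1, f t = g t) : f 1 = g 1 := by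
  have h1 : Tendsto f (𝓝[<] 1) (𝓝 (f 1)) := hf
  have h2 : Tendsto g (𝓝[<] 1) (𝓝 (g 1)) := by
    have := hg 1 (by simp)
    have h3 : Tendsto g (𝓝[Icc 0 1] 1) (𝓝 (g 1)) := this
    refine h3.mono_left ?_
    rw [← nhdsWithin_Ioo_eq_nhdsLT (zero_lt_one' ℝ)]
    exact nhdsWithin_mono _ Ioo_subset_Icc_self
  have h3 : f =ᶠ[𝓝[<] 1] g := by
    rw [← nhdsWithin_Ioo_eq_nhdsLT (zero_lt_one' ℝ)]
    filter_upwards [self_mem_nhdsWithin] with t ht using h t ht
  exact tendsto_nhds_unique h1 (h2.congr' h3.symm)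

lemma boundary {b : ℂ} (hb : ‖b‖ = 1) :
    (1 + b) ^ 2 * Complex.log (1 + b) - b - 3 / 2 * b ^ 2 = AA b := by
  have key := lim_unique (f := fun t : ℝ => (1 + (t : ℂ) * b) ^ 2 * Complex.log (1 + (t : ℂ) * b)
      - (t : ℂ) * b - 3 / 2 * ((t : ℂ) * b) ^ 2) (g := fun t : ℝ => AA ((t : ℂ) * b)) ?_
      (cont_path b hb) ?_
  · simpa using key
  · by_cases hb1 : b = -1
    · subst hb1
      have h1 : ContinuousWithinAt (fun t : ℝ => (((1 - t) * ((1 - t) * Real.log (1 - t)) : ℝ) : ℂ)
          - (t : ℂ) * (-1) - 3 / 2 * ((t : ℂ) * (-1)) ^ 2) (Iio 1) 1 := by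
        apply Continuous.continuousWithinAt
        have := Real.continuous_mul_log
        have h2 : Continuous (fun t : ℝ => (1 - t) * Real.log (1 - t)) :=
          this.comp (continuous_const.sub continuous_id)
        fun_prop
      refine h1.congr ?_ ?_
      · intro t ht
        have h3 : (1 : ℂ) + (t : ℂ) * (-1) = ((1 - t : ℝ) : ℂ) := by push_cast; ring
        rw [h3, ← Complex.ofReal_log (by rw [mem_Iio] at ht; linarith)]
        push_cast
        ring
      · simp
    · apply ContinuousAt.continuousWithinAt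
      have hs : 1 + ((1 : ℝ) : ℂ) * b ∈ Complex.slitPlane := by
        rw [Complex.ofReal_one, one_mul, Complex.mem_slitPlane_iff]
        by_contra hcon
        push Not at hcon
        obtain ⟨h1, h2⟩ := hcon
        simp only [Complex.add_re, Complex.one_re, Complex.add_im, Complex.one_im, zero_add] at h1 h2
        have h3 : Complex.normSq b = 1 := by rw [Complex.normSq_eq_norm_sq, hb]; norm_num
        rw [Complex.normSq_apply, h2] at h3
        apply hb1
        apply Complex.ext
        · rw [Complex.neg_re, Complex.one_re]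
          nlinarith
        · rw [h2]; simp
      have hc : ContinuousAt (fun t : ℝ => Complex.log (1 + (t : ℂ) * b)) 1 :=
        ContinuousAt.clog (by fun_prop) hs
      fun_prop
  · intro t ht
    have hn : ‖(t : ℂ) * b‖ < 1 := by
      rw [norm_mul, hb, mul_one, Complex.norm_real, Real.norm_eq_abs, abs_of_pos ht.1]
      exact ht.2
    exact (hasSum_h hn).tsum_eq.symm

lemma pointwise {b : ℂ} (hb : ‖b‖ = 1) :
    HasSum (fun n : ℕ => 2 * cc n * (b ^ (n + 2)).re)
      (‖1 + b‖ ^ 2 * Real.log (‖1 + b‖ ^ 2) - 2 - 3 * b.re) := by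
  have h1 : HasSum (fun n : ℕ => (cc n : ℂ) * b ^ (n + 3))
      ((1 + b) ^ 2 * Complex.log (1 + b) - b - 3 / 2 * b ^ 2) := by
    rw [boundary hb]
    exact (summ hb.le 3).hasSum
  have hbc := mul_conj_one hb
  have h2 := h1.mul_left (2 * conj b)
  have h3 := (Complex.hasSum_re h2)
  have e1 : (fun n : ℕ => (2 * conj b * ((cc n : ℂ) * b ^ (n + 3))).re)
      = fun n : ℕ => 2 * cc n * (b ^ (n + 2)).re := by
    ext n
    have : 2 * conj b * ((cc n : ℂ) * b ^ (n + 3)) = ((2 * cc n : ℝ) : ℂ) * b ^ (n + 2) := by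
      push_cast
      rw [pow_succ b (n + 2)]
      linear_combination (2 * (cc n : ℂ) * b ^ (n + 2)) * hbc
    rw [this, Complex.re_ofReal_mul]
  rw [e1] at h3
  have e2 : (2 * conj b * ((1 + b) ^ 2 * Complex.log (1 + b) - b - 3 / 2 * b ^ 2)).re
      = ‖1 + b‖ ^ 2 * Real.log (‖1 + b‖ ^ 2) - 2 - 3 * b.re := by
    have e3 : conj b * (1 + b) ^ 2 = ((‖1 + b‖ ^ 2 : ℝ) : ℂ) := by
      rw [← Complex.normSq_eq_norm_sq, ← Complex.mul_conj, map_add, map_one]
      linear_combination (1 + b) * hbc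
    have e4 : 2 * conj b * ((1 + b) ^ 2 * Complex.log (1 + b) - b - 3 / 2 * b ^ 2)
        = ((2 * ‖1 + b‖ ^ 2 : ℝ) : ℂ) * Complex.log (1 + b) - 2 - ((3 : ℝ) : ℂ) * b := by
      push_cast at e3 ⊢
      linear_combination (2 * Complex.log (1 + b)) * e3 - (2 + 3 * b) * hbc
    rw [e4, Complex.sub_re, Complex.sub_re, Complex.re_ofReal_mul, Complex.re_ofReal_mul,
      Complex.log_re, Real.log_pow]
    norm_num
    ring
  rw [e2] at h3
  exact h3

lemma cont_circ {E : Type*} [NormedAddCommGroup E] {F : ℂ → E}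
    (h : ContinuousOn F (sphere 0 1)) : Continuous (fun θ : ℝ => F (circleMap 0 1 θ)) := by
  apply ContinuousOn.comp_continuous h (continuous_circleMap 0 1)
  intro θ
  exact circleMap_mem_sphere 0 zero_le_one θ

lemma norm_circ (θ : ℝ) : ‖circleMap 0 1 θ‖ = 1 := by
  simp

theorem t_SER : T_SER := by
  intro D b hD hb _ hb1 u0 u1 θ hu0 hu1 hk h2
  have hDc := cont_circ hD
  have hbc := cont_circ hb
  -- the moments
  set U : ℕ → ℝ := fun k => av (fun z => D z * (b z ^ k).re) with hU
  have hUk : ∀ k, (avc (fun z => (D z : ℂ) * b z ^ k)).re = U k := by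
    intro k
    rw [avc_re]
    · simp only [hU, Complex.re_ofReal_mul]
    · apply ci_of
      exact (Complex.continuous_ofReal.comp_continuousOn hD).mul (hb.pow k)
  have hUb : ∀ k, |U k| ≤ ‖avc (fun z => (D z : ℂ) * b z ^ k)‖ := by
    intro k
    rw [← hUk k]
    exact Complex.abs_re_le_norm _
  have hU1 : U 1 = u1 := by
    rw [← hUk 1]
    simp only [pow_one]
    rw [hu1, Complex.ofReal_re]
  have hU0 : av D = u0 := by
    have := avc_ofReal D
    rw [this] at hu0
    exact_mod_cast hu0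
  -- the bound for D
  obtain ⟨K, hK⟩ : ∃ K, ∀ z : ℂ, ‖z‖ = 1 → |D z| ≤ K := by
    have hcomp : IsCompact (sphere (0 : ℂ) 1) := isCompact_sphere 0 1
    obtain ⟨K, hK⟩ := hcomp.exists_bound_of_continuousOn hD
    exact ⟨K, fun z hz => hK z (by simpa using hz)⟩
  have hK0 : 0 ≤ K := (abs_nonneg _).trans (hK 1 (by simp))
  set Φ : ℂ → ℝ := fun z => ‖1 + b z‖ ^ 2 * Real.log (‖1 + b z‖ ^ 2) - 2 - 3 * (b z).re with hΦ
  have hsum : HasSum (fun n : ℕ => 2 * cc n * U (n + 2)) (av (fun z => D z * Φ z)) := by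
    have h3 := intervalIntegral.hasSum_integral_of_dominated_convergence
      (μ := MeasureTheory.volume) (a := 0) (b := 2 * Real.pi)
      (F := fun (n : ℕ) (t : ℝ) => D (circleMap 0 1 t) * (2 * cc n * (b (circleMap 0 1 t) ^ (n + 2)).re))
      (f := fun t => D (circleMap 0 1 t) * Φ (circleMap 0 1 t))
      (fun n _ => K * (2 * ca n)) ?_ ?_ ?_ ?_ ?_
    · have h4 := h3.mul_left ((2 * Real.pi)⁻¹)
      have e1 : ((2 * Real.pi)⁻¹ * ∫ t in (0 : ℝ)..(2 * Real.pi), D (circleMap 0 1 t) * Φ (circleMap 0 1 t))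
          = av (fun z => D z * Φ z) := by
        unfold av Real.circleAverage
        rw [smul_eq_mul]
      rw [e1] at h4
      have e2 : (fun n : ℕ => 2 * cc n * U (n + 2)) = fun i : ℕ => (2 * Real.pi)⁻¹ *
          ∫ t in (0 : ℝ)..(2 * Real.pi), D (circleMap 0 1 t) *
            (2 * cc i * (b (circleMap 0 1 t) ^ (i + 2)).re) := by
        ext n
        simp only [hU, av, Real.circleAverage, smul_eq_mul]
        rw [mul_left_comm, ← intervalIntegral.integral_const_mul]
        congr 2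
        ext t
        ring
      rw [e2]
      exact h4
    · intro n
      apply Continuous.aestronglyMeasurable
      exact hDc.mul (continuous_const.mul (Complex.continuous_re.comp (hbc.pow _)))
    · intro n
      refine Eventually.of_forall (fun t _ => ?_)
      rw [Real.norm_eq_abs, abs_mul, abs_mul, abs_mul, abs_cc, abs_two]
      have h5 := hK _ (norm_circ t)
      have h6 : |(b (circleMap 0 1 t) ^ (n + 2)).re| ≤ 1 := by
        refine (Complex.abs_re_le_norm _).trans ?_
        rw [norm_pow, hb1 _ (norm_circ t), one_pow]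
      have h7 := ca_pos n
      calc |D (circleMap 0 1 t)| * (2 * ca n * |(b (circleMap 0 1 t) ^ (n + 2)).re|)
          ≤ K * (2 * ca n * 1) := by gcongr
        _ = K * (2 * ca n) := by ring
    · refine Eventually.of_forall (fun t _ => ?_)
      exact (hasSum_ca.summable.mul_left 2).mul_left K
    · exact intervalIntegrable_const
    · refine Eventually.of_forall (fun t _ => ?_)
      exact (pointwise (hb1 _ (norm_circ t))).mul_left _
  -- the value
  have hre : ContinuousOn (fun z => (b z).re) (sphere 0 1) :=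
    Complex.continuous_re.comp_continuousOn hb
  have hval : av (fun z => D z * ‖1 + b z‖ ^ 2 * Real.log (‖1 + b z‖ ^ 2))
      = av (fun z => D z * Φ z) + 2 * u0 + 3 * u1 := by
    have e : (fun z => D z * ‖1 + b z‖ ^ 2 * Real.log (‖1 + b z‖ ^ 2))
        = fun z => (D z * Φ z + (2 : ℝ) • D z) + (3 : ℝ) • (D z * (b z ^ 1).re) := by
      ext z
      simp only [hΦ, smul_eq_mul, pow_one]
      ring
    have hΦc : ContinuousOn Φ (sphere 0 1) := by
      have h1 : ContinuousOn (fun z => ‖1 + b z‖ ^ 2) (sphere 0 1) :=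
        ((continuousOn_const.add hb).norm.pow 2)
      have h2 : ContinuousOn (fun z => ‖1 + b z‖ ^ 2 * Real.log (‖1 + b z‖ ^ 2)) (sphere 0 1) :=
        Real.continuous_mul_log.comp_continuousOn h1
      exact (h2.sub continuousOn_const).sub (continuousOn_const.mul hre)
    have c1 : CircleIntegrable (fun z => D z * Φ z) 0 1 := ci_of (hD.mul hΦc)
    have c2 : CircleIntegrable (fun z => (2 : ℝ) • D z) 0 1 :=
      ci_of (ContinuousOn.fun_const_smul hD (2 : ℝ))
    have c3 : CircleIntegrable (fun z => (3 : ℝ) • (D z * (b z ^ 1).re)) 0 1 := by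
      apply ci_of
      apply ContinuousOn.fun_const_smul
      simp only [pow_one]
      exact hD.mul hre
    have c12 : CircleIntegrable (fun z => D z * Φ z + (2 : ℝ) • D z) 0 1 := c1.add c2
    have : av (fun z => (D z * Φ z + (2 : ℝ) • D z) + (3 : ℝ) • (D z * (b z ^ 1).re))
        = av (fun z => D z * Φ z) + 2 * av D + 3 * U 1 := by
      simp only [hU]
      unfold av
      rw [Real.circleAverage_fun_add c12 c3, Real.circleAverage_fun_add c1 c2,
        Real.circleAverage_fun_smul, Real.circleAverage_fun_smul]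
      simp only [smul_eq_mul]
    rw [e, this, hU0, hU1]
  rw [hval]
  -- lower bound of the series
  have hu1nn : 0 ≤ u1 := (norm_nonneg _).trans (hk 1 le_rfl)
  have hlow : -(2 / 3 * θ * u1) - 1 / 3 * u1 ≤ av (fun z => D z * Φ z) := by
    have h3 : HasSum (fun n : ℕ => if n = 0 then -(2 / 3 * θ * u1) else -(2 * ca n * u1))
        (-(2 / 3 * θ * u1) - 1 / 3 * u1) := by
      have h4 : HasSum (fun n : ℕ => -(2 * ca n * u1)) (-u1) := by
        have := ((hasSum_ca.mul_left 2).mul_right u1).neg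
        have e : -(2 * (1 / 2) * u1) = -u1 := by ring
        rw [e] at this
        exact this
      have h5 := h4.update 0 (-(2 / 3 * θ * u1))
      have e1 : ca 0 = 1 / 3 := by unfold ca; norm_num
      have e2 : -(2 / 3 * θ * u1) - -(2 * ca 0 * u1) + -u1 = -(2 / 3 * θ * u1) - 1 / 3 * u1 := by
        rw [e1]; ring
      rw [e2] at h5
      have e3 : (fun n : ℕ => if n = 0 then -(2 / 3 * θ * u1) else -(2 * ca n * u1))
          = Function.update (fun n : ℕ => -(2 * ca n * u1)) 0 (-(2 / 3 * θ * u1)) := by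
        ext n
        rw [Function.update_apply]
      rw [e3]
      exact h5
    refine hasSum_le ?_ h3 hsum
    intro n
    by_cases hn : n = 0
    · subst hn
      rw [if_pos rfl]
      have e1 : cc 0 = 1 / 3 := by unfold cc; norm_num
      rw [e1]
      have h6 := (abs_le.mp ((hUb (0 + 2)).trans h2)).1
      linarith
    · rw [if_neg hn]
      have h6 := (hUb (n + 2)).trans (hk (n + 2) (by omega))
      have h7 : |2 * cc n * U (n + 2)| ≤ 2 * ca n * u1 := by
        rw [abs_mul, abs_mul, abs_cc, abs_two]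
        have := ca_pos n
        gcongr
      exact (abs_le.mp h7).1
  linarith

end Pool.Agent.H92.NP
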