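import Mathlib
import Pool.Agent.H92.NP.Pars

/-!
Moments of `b = pA / pB` (`MP_ff17e6_an`).
-/

set_option autoImplicit false

open Metric Set Filter Topology Polynomial

namespace Pool.Agent.H92.NP

open Pool.Agent.H82.NP
open Pool.Agent.H82.Hp (co Np Fext co_zero)

open ComplexConjugate

/-- the weights -/
noncomputable def ww (n j : ℕ) : ℝ := max 0 ((n : ℝ) / (max j 1 : ℕ) - 1)

lemma ww_nonneg (n j : ℕ) : 0 ≤ ww n j := le_max_left _ _

lemma ww_antitone (n : ℕ) : Antitone (ww n) := by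
  intro i j hij
  unfold ww
  apply max_le_max_left
  apply sub_le_sub_right
  apply div_le_div_of_nonneg_left (Nat.cast_nonneg n)
  · exact_mod_cast (lt_of_lt_of_le one_pos (le_max_right i 1))
  · exact_mod_cast max_le_max_right 1 hij

lemma ww_eq {n j : ℕ} (h1 : 1 ≤ j) (h2 : j ≤ n) : ww n j = ((n : ℝ) - j) / j := by
  unfold ww
  rw [max_eq_left h1]
  have h3 : (0 : ℝ) < j := by exact_mod_cast h1
  have h4 : (j : ℝ) ≤ n := by exact_mod_cast h2
  rw [max_eq_right]
  · field_simp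
  · rw [sub_nonneg, one_le_div h3]
    exact h4

lemma ww_big {n j : ℕ} (h : n ≤ j) (h1 : 1 ≤ j) : ww n j = 0 := by
  unfold ww
  rw [max_eq_left h1]
  have h3 : (0 : ℝ) < j := by exact_mod_cast h1
  have h4 : (n : ℝ) ≤ j := by exact_mod_cast h
  rw [max_eq_left]
  rw [sub_nonpos, div_le_one h3]
  exact h4

lemma ww_shift {n i : ℕ} (hn : 1 ≤ n) (hi : 1 ≤ i) :
    ww n (i + 1) ≤ (1 - 1 / (n : ℝ)) ^ 2 * ww n i := by
  by_cases h : i + 1 ≤ n
  · rw [ww_eq (by omega) h, ww_eq hi (by omega)]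
    have h1 : (0 : ℝ) < i := by exact_mod_cast hi
    have h2 : (0 : ℝ) < n := by exact_mod_cast hn
    have h3 : (i : ℝ) + 1 ≤ n := by exact_mod_cast h
    push_cast
    rw [div_le_iff₀ (by positivity)]
    have e : (1 - 1 / (n : ℝ)) ^ 2 * (((n : ℝ) - i) / i) * (i + 1)
        = ((n - 1) ^ 2 * (n - i) * (i + 1)) / (n ^ 2 * i) := by
      field_simp
    rw [e, le_div_iff₀ (by positivity)]
    have e2 : ((n : ℝ) - 1) ^ 2 * (n - i) * (i + 1) - (n - (i + 1)) * (n ^ 2 * i)
        = n ^ 3 - (2 * n - 1) * ((n - i) * (i + 1)) := by ring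
    have e3 : ((n : ℝ) - i) * (i + 1) ≤ (n + 1) ^ 2 / 4 := by
      nlinarith [sq_nonneg ((n : ℝ) - i - (i + 1))]
    have h4 : (1 : ℝ) ≤ n := by exact_mod_cast hn
    have e4 : (2 * (n : ℝ) - 1) * ((n - i) * (i + 1)) ≤ (2 * n - 1) * ((n + 1) ^ 2 / 4) := by
      apply mul_le_mul_of_nonneg_left e3
      linarith
    have e5 : (2 * (n : ℝ) - 1) * ((n + 1) ^ 2 / 4) ≤ n ^ 3 := by
      have : 0 ≤ ((n : ℝ) - 1) ^ 2 * (2 * n + 1) := by positivity
      nlinarith
    linarith
  · rw [ww_big (by omega) (by omega)]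
    have := ww_nonneg n i
    positivity

lemma pA_coeff (n : ℕ) (G : ℂ[X]) (j : ℕ) : (pA n G).coeff j = ((j : ℂ) / n) * G.coeff j := by
  unfold pA
  rw [coeff_C_mul]
  cases j with
  | zero => simp
  | succ j =>
    rw [coeff_X_mul, coeff_derivative]
    push_cast
    ring

lemma pB_coeff (n : ℕ) (G : ℂ[X]) (j : ℕ) : (pB n G).coeff j = (1 - (j : ℂ) / n) * G.coeff j := by
  unfold pB
  rw [coeff_sub, pA_coeff]
  ring

lemma pA_deg {n : ℕ} {G : ℂ[X]} (hG : G.natDegree ≤ n) : (pA n G).natDegree ≤ n := by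
  rw [natDegree_le_iff_coeff_eq_zero]
  intro N hN
  rw [pA_coeff, coeff_eq_zero_of_natDegree_lt (lt_of_le_of_lt hG hN), mul_zero]

lemma pB_deg {n : ℕ} {G : ℂ[X]} (hG : G.natDegree ≤ n) : (pB n G).natDegree ≤ n := by
  rw [natDegree_le_iff_coeff_eq_zero]
  intro N hN
  rw [pB_coeff, coeff_eq_zero_of_natDegree_lt (lt_of_le_of_lt hG hN), mul_zero]

lemma nrm_A (n : ℕ) (G : ℂ[X]) :
    nrm n (pA n G) = ∑ j ∈ Finset.range (n + 1), ((j : ℝ) / n) ^ 2 * ‖G.coeff j‖ ^ 2 := by
  unfold nrm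
  apply Finset.sum_congr rfl
  intro j _
  rw [pA_coeff, norm_mul, mul_pow]
  congr 2
  rw [norm_div, Complex.norm_natCast, Complex.norm_natCast]

lemma nrm_B (n : ℕ) (G : ℂ[X]) :
    nrm n (pB n G) = ∑ j ∈ Finset.range (n + 1), (1 - (j : ℝ) / n) ^ 2 * ‖G.coeff j‖ ^ 2 := by
  unfold nrm
  apply Finset.sum_congr rfl
  intro j _
  rw [pB_coeff, norm_mul, mul_pow]
  congr 1
  have : (1 - (j : ℂ) / n) = ((1 - (j : ℝ) / n : ℝ) : ℂ) := by push_cast; rfl
  rw [this, Complex.norm_real, Real.norm_eq_abs, sq_abs]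

/-- Cauchy-Schwarz with weights -/
lemma cs_weight (s : Finset ℕ) (w x y : ℕ → ℝ) (hw : ∀ j, 0 ≤ w j) :
    (∑ j ∈ s, w j * (x j * y j)) ^ 2 ≤ (∑ j ∈ s, w j * x j ^ 2) * ∑ j ∈ s, w j * y j ^ 2 := by
  have := Finset.sum_mul_sq_le_sq_mul_sq s (fun j => Real.sqrt (w j) * x j)
    (fun j => Real.sqrt (w j) * y j)
  have e1 : ∀ j, Real.sqrt (w j) * x j * (Real.sqrt (w j) * y j) = w j * (x j * y j) := by
    intro j
    have := Real.mul_self_sqrt (hw j)
    calc Real.sqrt (w j) * x j * (Real.sqrt (w j) * y j)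
        = (Real.sqrt (w j) * Real.sqrt (w j)) * (x j * y j) := by ring
      _ = _ := by rw [this]
  have e2 : ∀ (x : ℕ → ℝ) j, (Real.sqrt (w j) * x j) ^ 2 = w j * x j ^ 2 := by
    intro x j
    rw [mul_pow, Real.sq_sqrt (hw j)]
  simp only [e1, e2] at this
  exact this

theorem t_UB (hAB : T_AB) : T_UB := by
  intro n G hn hdeg hS hnorm
  obtain ⟨⟨R, hR, hB0⟩, hABn⟩ := hAB n G hn hdeg hS
  have hn0 : (n : ℂ) ≠ 0 := by exact_mod_cast (by omega : n ≠ 0)
  have hnR : (0 : ℝ) < n := by exact_mod_cast hn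
  set A := pA n G with hA
  set B := pB n G with hB
  have hAd : A.natDegree ≤ n := pA_deg hdeg.le
  have hBd : B.natDegree ≤ n := pB_deg hdeg.le
  have hRball : ∀ z : ℂ, ‖z‖ = 1 → z ∈ ball (0 : ℂ) R := by
    intro z hz
    rw [mem_ball_zero_iff, hz]; exact hR
  have hBc : ∀ z : ℂ, ‖z‖ = 1 → B.eval z ≠ 0 := fun z hz => hB0 z (hRball z hz)
  -- the functions
  set bt : ℂ → ℂ := fun z => ((C ((n : ℂ)⁻¹) * derivative G).eval z) / B.eval z with hbt
  set b : ℂ → ℂ := fun z => A.eval z / B.eval z with hb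
  have hbz : ∀ z, b z = z * bt z := by
    intro z
    simp only [hb, hbt, hA, pA, eval_mul, eval_C, eval_X]
    ring
  have hbtd : DifferentiableOn ℂ bt (ball 0 R) :=
    (Polynomial.differentiable _).differentiableOn.div (Polynomial.differentiable _).differentiableOn hB0
  have hbd : DifferentiableOn ℂ b (ball 0 R) :=
    (Polynomial.differentiable _).differentiableOn.div (Polynomial.differentiable _).differentiableOn hB0
  have hb1 : ∀ z : ℂ, ‖z‖ = 1 → ‖b z‖ = 1 := by
    intro z hz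
    simp only [hb, norm_div]
    rw [hABn z hz, div_self]
    exact norm_ne_zero_iff.mpr (hBc z hz)
  have hbt1 : ∀ z : ℂ, ‖z‖ = 1 → ‖bt z‖ = 1 := by
    intro z hz
    have := hb1 z hz
    rw [hbz, norm_mul, hz, one_mul] at this
    exact this
  -- holomorphic functions
  set F : ℕ → ℂ → ℂ := fun k z => b z ^ k * A.eval z with hF
  have hFd : ∀ k, DifferentiableOn ℂ (F k) (ball 0 R) := fun k =>
    (hbd.pow k).mul (Polynomial.differentiable _).differentiableOn
  have hub : ∀ k, ub n G (k + 1) = ∑ j ∈ Finset.range (n + 1), co (F k) j * conj (B.coeff j) := by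
    intro k
    rw [← avc_pair (dcc_of hR (hFd k)) hBd]
    unfold ub
    apply av_congr
    intro z hz
    show ((‖B.eval z‖ ^ 2 : ℝ) : ℂ) * (A.eval z / B.eval z) ^ (k + 1) = F k z * conj (B.eval z)
    rw [← Complex.normSq_eq_norm_sq, ← Complex.mul_conj, pow_succ]
    have := hBc z hz
    simp only [hF, hb]
    field_simp
  have hA0 : A.eval 0 = 0 := by
    rw [← coeff_zero_eq_eval_zero, hA, pA_coeff]
    simp
  have hF0 : ∀ k, co (F k) 0 = 0 := by
    intro k
    rw [co_zero]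
    simp only [hF, hA0, mul_zero]
  have hBA : ∀ j, 1 ≤ j → j ≤ n → B.coeff j = (ww n j : ℂ) * A.coeff j := by
    intro j hj hjn
    rw [ww_eq hj hjn, hB, hA, pA_coeff, pB_coeff]
    have : (j : ℂ) ≠ 0 := by exact_mod_cast (by omega : j ≠ 0)
    push_cast
    field_simp
  have hub' : ∀ k, ub n G (k + 1)
      = ∑ j ∈ Finset.range (n + 1), (ww n j : ℂ) * (co (F k) j * conj (A.coeff j)) := by
    intro k
    rw [hub k]
    apply Finset.sum_congr rfl
    intro j hj
    rw [Finset.mem_range] at hj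
    rcases Nat.eq_zero_or_pos j with rfl | hj1
    · rw [hF0]; ring
    · rw [hBA j hj1 (by omega), map_mul, Complex.conj_ofReal]
      ring
  have hvv : ∑ j ∈ Finset.range (n + 1), ww n j * ‖A.coeff j‖ ^ 2 = vv n G := by
    unfold vv
    apply Finset.sum_congr rfl
    intro j hj
    rw [Finset.mem_range] at hj
    rcases Nat.eq_zero_or_pos j with rfl | hj1
    · rw [coeff_zero_eq_eval_zero, hA0]; simp
    · rw [ww_eq hj1 (by omega), hA, pA_coeff, norm_mul, norm_div, Complex.norm_natCast,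
        Complex.norm_natCast]
      have : (j : ℝ) ≠ 0 := by exact_mod_cast (by omega : j ≠ 0)
      field_simp
  have hvv0 : 0 ≤ vv n G := by
    rw [← hvv]
    exact Finset.sum_nonneg (fun j _ => mul_nonneg (ww_nonneg n j) (by positivity))
  -- the bound by Cauchy-Schwarz
  have hcs : ∀ k, ‖ub n G (k + 1)‖ ^ 2
      ≤ (∑ j ∈ Finset.range (n + 1), ww n j * ‖co (F k) j‖ ^ 2) * vv n G := by
    intro k
    rw [hub' k, ← hvv]
    have h1 : ‖∑ j ∈ Finset.range (n + 1), (ww n j : ℂ) * (co (F k) j * conj (A.coeff j))‖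
        ≤ ∑ j ∈ Finset.range (n + 1), ww n j * (‖co (F k) j‖ * ‖A.coeff j‖) := by
      refine (norm_sum_le _ _).trans (le_of_eq ?_)
      apply Finset.sum_congr rfl
      intro j _
      rw [norm_mul, norm_mul, Complex.norm_real, Real.norm_eq_abs, abs_of_nonneg (ww_nonneg n j),
        Complex.norm_conj]
    refine (pow_le_pow_left₀ (norm_nonneg _) h1 2).trans ?_
    exact cs_weight _ _ _ _ (ww_nonneg n)
  have hFA : ∀ k, ∑ j ∈ Finset.range (n + 1), ww n j * ‖co (F k) j‖ ^ 2 ≤ vv n G := by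
    intro k
    induction k with
    | zero =>
      rw [← hvv]
      apply le_of_eq
      apply Finset.sum_congr rfl
      intro j _
      have : F 0 = fun z => A.eval z := by
        ext z; simp [hF]
      rw [this, co_poly]
    | succ k ih =>
      refine le_trans ?_ ih
      have h2 := t_CONTR R hR b (F k) hbd (hFd k) (fun z hz => (hb1 z hz).le) (ww n)
        (ww_antitone n) (ww_nonneg n) (n + 1)
      have e : F (k + 1) = fun z => b z * F k z := by
        ext z; simp only [hF, pow_succ]; ring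
      rw [e]
      exact h2
  refine ⟨?_, ?_, ?_, ?_⟩
  · -- k = 0
    have h1 : ub n G 0 = ((av (sq B) : ℝ) : ℂ) := by
      rw [← avc_ofReal]
      unfold ub
      apply av_congr
      intro z _
      simp only [pow_zero, mul_one, Pool.Agent.H82.NP.sq]
      rfl
    rw [h1]
    congr 1
    have h2 : av (sq A) = av (sq B) := by
      apply av_congr
      intro z hz
      simp only [Pool.Agent.H82.NP.sq]
      rw [hABn z hz]
    rw [t_PARS n A hAd, t_PARS n B hBd, hA, hB, nrm_A n, nrm_B n] at h2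
    rw [t_PARS n B hBd, hB, nrm_B n]
    have h3 : ∑ j ∈ Finset.range (n + 1), ((j : ℝ) / n) ^ 2 * ‖G.coeff j‖ ^ 2
        + ∑ j ∈ Finset.range (n + 1), (1 - (j : ℝ) / n) ^ 2 * ‖G.coeff j‖ ^ 2
        + 2 * vv n G = 1 := by
      refine Eq.trans ?_ hnorm
      unfold vv nrm
      rw [Finset.mul_sum, ← Finset.sum_add_distrib, ← Finset.sum_add_distrib]
      apply Finset.sum_congr rfl
      intro j _
      field_simp
      ring
    linarith
  · -- k = 1
    rw [show (1 : ℕ) = 0 + 1 from rfl, hub' 0, ← hvv]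
    push_cast
    apply Finset.sum_congr rfl
    intro j _
    have : F 0 = fun z => A.eval z := by
      ext z; simp [hF]
    rw [this, co_poly, Complex.mul_conj, Complex.normSq_eq_norm_sq]
    push_cast
    rfl
  · intro k hk
    obtain ⟨m, rfl⟩ := Nat.exists_eq_succ_of_ne_zero (by omega : k ≠ 0)
    have h1 := hcs m
    have h2 := mul_le_mul_of_nonneg_right (hFA m) hvv0
    have h3 : ‖ub n G (m + 1)‖ ^ 2 ≤ vv n G ^ 2 := by
      calc _ ≤ _ := h1
        _ ≤ _ := h2
        _ = _ := by ring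
    exact (pow_le_pow_iff_left₀ (norm_nonneg _) hvv0 two_ne_zero).mp h3
  · -- k = 2
    have h1 := hcs 1
    have hlam : 0 ≤ 1 - 1 / (n : ℝ) := by
      rw [sub_nonneg, div_le_one hnR]
      exact_mod_cast hn
    -- shift
    set H : ℂ → ℂ := fun z => bt z * A.eval z with hH
    have hHd : DifferentiableOn ℂ H (ball 0 R) :=
      hbtd.mul (Polynomial.differentiable _).differentiableOn
    have hF1 : F 1 = fun z => (X : ℂ[X]).eval z * H z := by
      ext z
      simp only [hF, pow_one, hbz, hH, eval_X]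
      ring
    have hXa : AnalyticAt ℂ (fun z => (X : ℂ[X]).eval z) 0 :=
      (X : ℂ[X]).differentiable.analyticAt 0
    have hco : ∀ j, co (F 1) (j + 1) = co H j := by
      intro j
      rw [hF1, co_mul hXa (an_zero hR hHd), Finset.sum_eq_single 1]
      · rw [co_poly, coeff_X_one, one_mul, Nat.add_sub_cancel]
      · intro i _ hi
        rw [co_poly, coeff_X_of_ne_one hi, zero_mul]
      · intro h
        exact absurd (Finset.mem_range.mpr (by omega)) h
    have hH0 : co H 0 = 0 := by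
      rw [co_zero]
      simp only [hH, hA0, mul_zero]
    have hN2 : ∑ j ∈ Finset.range (n + 1), ww n j * ‖co (F 1) j‖ ^ 2
        ≤ (1 - 1 / (n : ℝ)) ^ 2 * vv n G := by
      rw [Finset.sum_range_succ']
      rw [hF0, norm_zero, zero_pow two_ne_zero, mul_zero, add_zero]
      have e1 : ∑ j ∈ Finset.range n, ww n (j + 1) * ‖co (F 1) (j + 1)‖ ^ 2
          ≤ ∑ j ∈ Finset.range n, (1 - 1 / (n : ℝ)) ^ 2 * (ww n j * ‖co H j‖ ^ 2) := by
        apply Finset.sum_le_sum
        intro j _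
        rw [hco]
        rcases Nat.eq_zero_or_pos j with rfl | hj1
        · rw [hH0]; simp
        · have h5 := ww_shift hn hj1
          calc ww n (j + 1) * ‖co H j‖ ^ 2
              ≤ ((1 - 1 / (n : ℝ)) ^ 2 * ww n j) * ‖co H j‖ ^ 2 := by gcongr
            _ = _ := by ring
      refine e1.trans ?_
      rw [← Finset.mul_sum]
      apply mul_le_mul_of_nonneg_left _ (by positivity)
      have h6 := t_CONTR R hR bt (fun z => A.eval z) hbtd
        (Polynomial.differentiable _).differentiableOn (fun z hz => (hbt1 z hz).le) (ww n)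
        (ww_antitone n) (ww_nonneg n) n
      have h7 : ∑ j ∈ Finset.range n, ww n j * ‖co (fun z => A.eval z) j‖ ^ 2 ≤ vv n G := by
        rw [← hvv, Finset.sum_range_succ]
        have h8 : 0 ≤ ww n n * ‖A.coeff n‖ ^ 2 := mul_nonneg (ww_nonneg n n) (by positivity)
        simp only [co_poly]
        linarith
      exact h6.trans h7
    have h2 := mul_le_mul_of_nonneg_right hN2 hvv0
    have h3 : ‖ub n G 2‖ ^ 2 ≤ ((1 - 1 / (n : ℝ)) * vv n G) ^ 2 := by
      calc _ ≤ _ := h1
        _ ≤ _ := h2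
        _ = _ := by ring
    exact (pow_le_pow_iff_left₀ (norm_nonneg _) (mul_nonneg hlam hvv0) two_ne_zero).mp h3

end Pool.Agent.H92.NP
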